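import Pool.Agent.Helper65.KG.Goals
import Pool.Agent.Helper32.KN.XX

/-!
# Project KG (MP_20ee5e_ag): assembly for `N = 4`
-/

set_option autoImplicit false

open MeasureTheory Set

namespace Pool.Agent.Helper65.KG

open Pool.Agent.Helper70.KN

theorem cyl_univ {N : ℕ} (V : Finset (Fin N → ℕ)) (L : Set (Fin N → ℝ)) (ω : ℝ) (hC : Cut V L ω) :
    cyl V Finset.univ = Set.univ.pi fun _ => Set.Ico (0 : ℝ) 1 := by
  obtain ⟨-, -, -, -, ⟨w, hw⟩, -, hnew⟩ := hC
  have h0 : (zr Finset.univ : (Fin N → ℝ) → Fin N → ℝ) = fun _ => 0 := by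
    funext x i
    simp [zr]
  have h1 : (0 : Fin N → ℝ) ∉ newton V := by
    rw [hnew]
    intro h
    have := h.2 w hw
    unfold dt at this
    simp at this
    linarith
  ext x
  simp only [cyl, Set.mem_ofPred_eq, h0, Set.mem_pi, Set.mem_univ, true_implies, Set.mem_Ico,
    Finset.mem_univ, Pi.le_def, Pi.zero_apply]
  constructor
  · rintro ⟨a, b, -⟩ i
    exact ⟨a i, b i⟩
  · intro a
    exact ⟨fun i => (a i).1, fun i => (a i).2, h1⟩

theorem W_univ {N : ℕ} (V : Finset (Fin N → ℕ)) (L : Set (Fin N → ℝ)) (ω : ℝ) (hC : Cut V L ω) :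
    W V Finset.univ = 1 := by
  unfold W
  rw [cyl_univ V L ω hC, Real.volume_pi_Ico]
  simp

theorem pc3 : (Finset.univ : Finset (Fin 4)).powersetCard 3 =
    Finset.univ.image fun i => Finset.univ.erase i := by decide

theorem pc2 : (Finset.univ : Finset (Fin 4)).powersetCard 2 =
    ((Finset.univ : Finset (Fin 4 × Fin 4)).filter fun p => p.1 < p.2).image
      fun p => ({p.1, p.2} : Finset (Fin 4))ᶜ := by decide

theorem inj3 : ∀ i j : Fin 4, (Finset.univ : Finset (Fin 4)).erase i = Finset.univ.erase j → i = j := by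
  decide

theorem inj2 : ∀ p q : Fin 4 × Fin 4, p.1 < p.2 → q.1 < q.2 →
    ({p.1, p.2} : Finset (Fin 4))ᶜ = ({q.1, q.2} : Finset (Fin 4))ᶜ → p = q := by
  decide

theorem X3 (V : Finset (Fin 4 → ℕ)) : X V 3 = ∑ i, W V (Finset.univ.erase i) := by
  unfold X
  rw [pc3, Finset.sum_image]
  intro i _ j _ h
  exact inj3 i j h

theorem X2 (V : Finset (Fin 4 → ℕ)) : X V 2 =
    ∑ i, ∑ j ∈ Finset.univ.filter (fun j => i < j), W V ({i, j} : Finset (Fin 4))ᶜ := by
  unfold X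
  rw [pc2, Finset.sum_image]
  · rw [Finset.sum_filter, Fintype.sum_prod_type]
    refine Finset.sum_congr rfl fun i _ => ?_
    rw [Finset.sum_filter]
  · intro p hp q hq h
    rw [Finset.coe_filter, Set.mem_ofPred_eq] at hp hq
    exact inj2 p q hp.2 hq.2 h

theorem X4 (V : Finset (Fin 4 → ℕ)) : X V 4 = W V Finset.univ := by
  unfold X
  have : (Finset.univ : Finset (Fin 4)).powersetCard 4 = {Finset.univ} := by decide
  rw [this, Finset.sum_singleton]

/-- the smallest exponents on the axes -/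
theorem axes {N : ℕ} (V : Finset (Fin N → ℕ)) (hV : Thick V 2) : ∃ m : Fin N → ℕ, ∀ i,
    2 ≤ m i ∧ (Pi.single i (m i) : Fin N → ℕ) ∈ V ∧
      ∀ k : ℕ, (Pi.single i k : Fin N → ℕ) ∈ V → m i ≤ k := by
  classical
  have h : ∀ i, ∃ k : ℕ, (Pi.single i k : Fin N → ℕ) ∈ V := fun i => by
    obtain ⟨k, -, hk⟩ := hV.1 i
    exact ⟨k, hk⟩
  refine ⟨fun i => Nat.find (h i), fun i => ⟨?_, Nat.find_spec (h i), fun k hk => Nat.find_min' (h i) hk⟩⟩
  have h1 := Nat.find_spec (h i)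
  have h2 : (Pi.single i (Nat.find (h i)) : Fin N → ℕ) i ≠ 0 := by
    intro h0
    rw [Pi.single_eq_same] at h0
    rw [h0, Pi.single_zero] at h1
    exact hV.2.2.1 h1
  have h3 := hV.2.2.2 _ h1 i h2
  rw [Pi.single_eq_same] at h3
  exact_mod_cast h3

/-- the face sums against the axes -/
theorem xi (hFB3 : S_FB3) (V : Finset (Fin 4 → ℕ)) (hV : Thick V 2) (m : Fin 4 → ℕ)
    (hm : ∀ i, 2 ≤ m i ∧ (Pi.single i (m i) : Fin 4 → ℕ) ∈ V) (ξ : ℝ)
    (hξ : ∀ a, ξ ≤ ∑ b ∈ Finset.univ.erase a, 1 / (m b : ℝ)) : ξ * T V 1 ≤ 2 * T V 2 := by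
  have hd := Pool.Agent.Helper32.KN.XX.double (W V) 1
  have h1 : ∀ a : Fin 4, 3 * W V {a} * ξ ≤ ∑ b ∈ ({a} : Finset (Fin 4))ᶜ, W V (insert b {a}) := by
    intro a
    have hW := W_nonneg V {a}
    have e : ({a} : Finset (Fin 4))ᶜ = Finset.univ.erase a := by
      ext b
      simp
    rw [e]
    refine (mul_le_mul_of_nonneg_left (hξ a) (by positivity)).trans ?_
    rw [Finset.mul_sum]
    refine Finset.sum_le_sum fun b hb => ?_
    have hba : b ∉ ({a} : Finset (Fin 4)) := by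
      rw [Finset.mem_singleton]
      exact (Finset.mem_erase.1 hb).1
    have hmb : 0 < m b := by have := (hm b).1; omega
    have hmb' : (0 : ℝ) < m b := by exact_mod_cast hmb
    have h2 := hFB3 4 V hV.1 {a} b (m b) hba hmb (hm b).2
    rw [Finset.card_singleton] at h2
    rw [mul_one_div, div_le_iff₀ hmb']
    push_cast at h2
    linarith
  have h2 : (∑ a : Fin 4, 3 * W V {a} * ξ) ≤
      ∑ a : Fin 4, ∑ b ∈ ({a} : Finset (Fin 4))ᶜ, W V (insert b {a}) :=
    Finset.sum_le_sum fun a _ => h1 a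
  have h3 : ∑ J ∈ (Finset.univ : Finset (Fin 4)).powersetCard 1, ∑ i ∈ Jᶜ, W V (insert i J) =
      ∑ a : Fin 4, ∑ b ∈ ({a} : Finset (Fin 4))ᶜ, W V (insert b {a}) := by
    rw [Finset.powersetCard_one, Finset.sum_map]
    rfl
  rw [h3] at hd
  have h4 : ∑ a : Fin 4, 3 * W V {a} * ξ = 3 * ξ * X V 1 := by
    rw [X_one, Finset.mul_sum]
    exact Finset.sum_congr rfl fun a _ => by ring
  rw [h4, ← hd] at h2
  have h5 : T V 1 = 6 * X V 1 := by
    unfold T
    norm_num [Nat.factorial]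
  have h6 : T V 2 = 2 * X V 2 := by
    unfold T
    norm_num [Nat.factorial]
  have h7 : (∑ J ∈ (Finset.univ : Finset (Fin 4)).powersetCard (1 + 1), W V J) = X V 2 := rfl
  rw [h7] at h2
  rw [h5, h6]
  push_cast at h2
  linarith

theorem four (hCT : S_CT) (hFA : S_FA) (hFB3 : S_FB3) (hFC2 : S_FC2) (hN4 : S_N4)
    (V : Finset (Fin 4 → ℕ)) (hV : Thick V 2) :
    ((Nat.factorial 4 : ℕ) : ℝ) * genus V < newtonNumber V := by
  obtain ⟨m, hm⟩ := axes V hV
  have hcut := hCT 4 V 2 (by norm_num) hV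
  have e1 : T V 3 = X V 3 := by
    unfold T
    norm_num [Nat.factorial]
  have e2 : T V 2 = 2 * X V 2 := by
    unfold T
    norm_num [Nat.factorial]
  have e4 : T V 4 = 1 := by
    unfold T
    rw [X4, W_univ V _ _ hcut]
    norm_num [Nat.factorial]
  have h3 : T V 3 ≤ ∑ i, (m i : ℝ) := by
    rw [e1, X3]
    exact Finset.sum_le_sum fun i _ => hFA 4 V hV.1 i (m i) (hm i).2.1
  have h2 : ∑ i, ∑ j ∈ Finset.univ.filter (fun j => i < j),
      min ((m i : ℝ) * m j) (2 * (m i + m j)) ≤ T V 2 := by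
    rw [e2, X2, Finset.mul_sum]
    refine Finset.sum_le_sum fun i _ => ?_
    rw [Finset.mul_sum]
    refine Finset.sum_le_sum fun j hj => ?_
    rw [Finset.mem_filter] at hj
    exact hFC2 4 V hV i j (m i) (m j) (ne_of_lt hj.2) (hm i).2.1 (hm i).2.2 (hm j).2.1 (hm j).2.2
  obtain ⟨α, β, ⟨hβ, hkp⟩, hfin⟩ := hN4 m (T V 1) (T V 2) (T V 3) (fun i => (hm i).1)
    (T_nonneg V 1) h3 h2 fun ξ hξ => xi hFB3 V hV m (fun i => ⟨(hm i).1, (hm i).2.1⟩) ξ hξ
  have hg := genus_le (by norm_num) V _ _ α β hcut hβ hkp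
  have hKO := pKO 4 V
  rw [Finset.sum_range_succ, Finset.sum_range_succ, Finset.sum_range_succ, Finset.sum_range_succ,
    Finset.sum_range_succ, Finset.sum_range_zero, e4] at hKO
  rw [hKO]
  push_cast at hg
  norm_num at hg ⊢
  linarith

end Pool.Agent.Helper65.KG
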