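import Pool.Agent.Helper65.KG.Big
import Pool.Agent.Helper65.KG.Four
import Pool.Agent.Helper4.KG.SW
import Pool.Agent.Helper12.KG.SV
import Pool.Agent.Helper9.KG.GV
import Pool.Agent.Helper30.KG.RY
import Pool.Agent.Helper16.KG.SCF
import Pool.Agent.Helper62.KG.CT
import Pool.Agent.Helper70.KG.SG2
import Pool.Agent.Helper83.KG.FE
import Pool.Agent.Helper34.KG.PI
import Pool.Agent.Helper48.KG.TP
import Pool.Agent.Helper26.KG.FB3
import Pool.Agent.Helper51.KG.FC2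
import Pool.Agent.Helper91.KG.FA
import Pool.Agent.Helper81.KG.KL
import Pool.Agent.Helper44.KG.N4
import Pool.Agent.Helper40.KG.NM5
import Pool.Agent.Helper14.KG.NM6
import Pool.Agent.Helper15.KG.NM7
import Pool.Agent.Helper38.KG.NM8
import Pool.Agent.Helper71.KG.NM9

/-!
# Project KG (MP_20ee5e_ag): assembly of THEOREM G
-/

set_option autoImplicit false

open MeasureTheory Set

namespace Pool.Agent.Helper65.KG

open Pool.Agent.Helper70.KN

theorem pCT : S_CT := Pool.Agent.Helper62.KG.CT.t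
theorem pSG2 : S_SG2 := Pool.Agent.Helper70.KG.SG2.t
theorem pFE : S_FE := Pool.Agent.Helper83.KG.FE.t pSG2
theorem pRY : S_RY := Pool.Agent.Helper30.KG.RY.t pCT
theorem pGV : S_GV := Pool.Agent.Helper9.KG.GV.t pCT
theorem pSCF : S_SCF := Pool.Agent.Helper16.KG.SCF.t
theorem pSV : S_SV := Pool.Agent.Helper12.KG.SV.t pCT pRY pGV pSCF
theorem pSW : S_SW := Pool.Agent.Helper4.KG.SW.t pSV
theorem pPI : S_PI := Pool.Agent.Helper34.KG.PI.t pCT pRY pFE pSW
theorem pTP : S_TP := Pool.Agent.Helper48.KG.TP.t pPI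
theorem pFB3 : S_FB3 := Pool.Agent.Helper26.KG.FB3.t
theorem pFC2 : S_FC2 := Pool.Agent.Helper51.KG.FC2.t
theorem pFA : S_FA := Pool.Agent.Helper91.KG.FA.t
theorem pKL : S_KL := Pool.Agent.Helper81.KG.KL.t
theorem pN4 : S_N4 := Pool.Agent.Helper44.KG.N4.t pKL
theorem pNM5 : S_NM5 := Pool.Agent.Helper40.KG.NM5.t
theorem pNM6 : S_NM6 := Pool.Agent.Helper14.KG.NM6.t
theorem pNM7 : S_NM7 := Pool.Agent.Helper15.KG.NM7.t
theorem pNM8 : S_NM8 := Pool.Agent.Helper38.KG.NM8.t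
theorem pNM9 : S_NM9 := Pool.Agent.Helper71.KG.NM9.t

theorem pNm (N : ℕ) (hN : 5 ≤ N) : Nm N := by
  rcases Nat.lt_or_ge N 9 with h | h
  · rcases (by omega : N = 5 ∨ N = 6 ∨ N = 7 ∨ N = 8) with rfl | rfl | rfl | rfl
    · exact pNM5
    · exact pNM6
    · exact pNM7
    · exact pNM8
  · exact pNM9 N h

/-- THEOREM G. -/
theorem theoremG (N : ℕ) (hN : 4 ≤ N) (V : Finset (Fin N → ℕ)) (hV : Convenient V)
    (h0 : (0 : Fin N → ℕ) ∉ V) (h : ∀ v ∈ V, ∀ i, v i ≠ 0 → N ≤ 2 * v i) :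
    (N.factorial : ℝ) * genus V < newtonNumber V := by
  have hN4 : (4 : ℝ) ≤ N := by exact_mod_cast hN
  have hT : Thick V ((N : ℝ) / 2) := by
    refine ⟨hV, by linarith, h0, fun v hv i hi => ?_⟩
    have h1 : (N : ℝ) ≤ 2 * (v i : ℝ) := by exact_mod_cast h v hv i hi
    linarith
  rcases Nat.lt_or_ge N 5 with h5 | h5
  · obtain rfl : N = 4 := by omega
    refine four pCT pFA pFB3 pFC2 pN4 V ?_
    have e : ((4 : ℕ) : ℝ) / 2 = 2 := by norm_num
    rw [e] at hT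
    exact hT
  · exact big pCT pTP N h5 (pNm N h5) V hT

/-- The volumes are finite. -/
theorem vol_finite {N : ℕ} (V : Finset (Fin N → ℕ)) (hV : Convenient V) (I : Finset (Fin N)) :
    volume {y : I → ℝ | extz I y ∈ under V} ≠ ⊤ := by
  obtain ⟨M, hM, hb⟩ := pBD N V hV
  refine ne_top_of_le_ne_top ?_ (measure_mono (t := Set.univ.pi fun _ => Set.Ico (0 : ℝ) M) ?_)
  · rw [Real.volume_pi_Ico]
    exact ENNReal.prod_ne_top fun i _ => ENNReal.ofReal_ne_top
  · intro y hy i _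
    have h1 : extz I y (i : Fin N) = y i := by
      unfold extz
      rw [dif_pos i.2]
    have h2 := hy.1 (i : Fin N)
    have h3 := hb _ hy.1 hy.2 (i : Fin N)
    rw [h1] at h2 h3
    exact ⟨h2, h3⟩

/-- The set of the lattice points is finite. -/
theorem genus_finite {N : ℕ} (V : Finset (Fin N → ℕ)) (hV : Convenient V) :
    {p : Fin N → ℕ | (∀ i, 0 < p i) ∧ (fun i => (p i : ℝ)) ∉ interior (newton V)}.Finite := by
  obtain ⟨M, hM, hb⟩ := pBD N V hV
  obtain ⟨m, hm⟩ := exists_nat_gt (M + 1)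
  refine (Set.Finite.pi' (ι := Fin N) (t := fun _ => Set.Iio m) fun _ => Set.finite_Iio m).subset ?_
  intro p hp i
  by_contra hi
  have hi' : m ≤ p i := by simpa using hi
  have hi2 : (m : ℝ) ≤ p i := by exact_mod_cast hi'
  apply hp.2
  rw [mem_interior_iff_mem_nhds, Metric.mem_nhds_iff]
  refine ⟨1, one_pos, fun x hx => ?_⟩
  have hd : ∀ j, |x j - p j| < 1 := fun j => by
    have h1 := dist_le_pi_dist x (fun i => (p i : ℝ)) j
    rw [Real.dist_eq] at h1
    exact lt_of_le_of_lt h1 hx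
  by_contra hn
  have h0 : (0 : Fin N → ℝ) ≤ x := fun j => by
    have h1 := abs_lt.1 (hd j)
    have h2 : (1 : ℝ) ≤ p j := by exact_mod_cast hp.1 j
    show (0 : ℝ) ≤ x j
    linarith
  have h3 := hb x h0 hn i
  have h4 := abs_lt.1 (hd i)
  linarith

end Pool.Agent.Helper65.KG
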