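import Pool.Agent.Helper65.KG.Goals
import Pool.Agent.Helper32.KN.XX
import Pool.Agent.Helper57.KN.CC
import Pool.Agent.Helper67.KN.SL
import Pool.Agent.Helper73.KN.TH

/-!
# Project KG (MP_20ee5e_ag): assembly for `N ≥ 5`
-/

set_option autoImplicit false

open MeasureTheory Set

namespace Pool.Agent.Helper65.KG

open Pool.Agent.Helper70.KN

theorem pXX : S_XX :=
  Pool.Agent.Helper32.KN.XX.t (Pool.Agent.Helper57.KN.CC.t pMF
    (Pool.Agent.Helper67.KN.SL.t pMF Pool.Agent.Helper73.KN.TH.t pSI pSC))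

theorem T_big {N : ℕ} (V : Finset (Fin N → ℕ)) (k : ℕ) (hk : N < k) : T V k = 0 := by
  unfold T X
  rw [Finset.powersetCard_eq_empty.2 (by rw [Finset.card_univ, Fintype.card_fin]; exact hk)]
  simp

/-- the first two terms of the alternating sum are split off -/
theorem split_two (T : ℕ → ℝ) (M : ℕ) : ∑ k ∈ Finset.range (M + 2), (-1 : ℝ) ^ k * T k =
    T 0 - T 1 + ∑ k ∈ Finset.range M, (-1 : ℝ) ^ k * T (k + 2) := by
  rw [Finset.sum_range_succ', Finset.sum_range_succ']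
  have : ∀ k, (-1 : ℝ) ^ (k + 1 + 1) * T (k + 1 + 1) = (-1 : ℝ) ^ k * T (k + 2) := by
    intro k
    rw [pow_succ, pow_succ]
    ring_nf
  rw [Finset.sum_congr rfl fun k _ => this k]
  ring

/-- the decreasing part of the sequence -/
theorem T_dec {N : ℕ} (V : Finset (Fin N → ℕ)) (hV : Thick V ((N : ℝ) / 2)) (k : ℕ) (hk : 1 ≤ k) :
    T V (k + 1) ≤ T V k := by
  rcases Nat.lt_or_ge k N with h | h
  · have h1 := pXX N V _ hV k h
    have hN : (0 : ℝ) < N := by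
      have : (0 : ℝ) < (N : ℝ) / 2 := hV.2.1
      linarith
    have hk' : (1 : ℝ) ≤ k := by exact_mod_cast hk
    have hT := T_nonneg V k
    have hT' := T_nonneg V (k + 1)
    have h2 : (N : ℝ) * T V (k + 1) ≤ (N : ℝ) * T V k := by
      nlinarith [mul_nonneg hN.le hT', mul_nonneg (mul_nonneg (sub_nonneg.2 hk') hN.le) hT',
        mul_nonneg (zero_le_one.trans hk') hT]
    exact le_of_mul_le_mul_left h2 hN
  · rw [T_big V (k + 1) (by omega)]
    exact T_nonneg V k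

/-- the inequality in the reals -/
theorem num_big (M T2 T3 T4 T5 : ℝ) (hM : 5 ≤ M) (h2 : 0 ≤ T2) (h4 : 0 ≤ T4)
    (e3 : (2 + 1) * (M / 2) * T3 ≤ (M - 2) * T2) (e5 : (4 + 1) * (M / 2) * T5 ≤ (M - 4) * T4)
    (eP : 0 ≤ (M - 2) * (M - 2 - 1) * T2 - 2 * (M / 2) * (M - 2 - 1) * (2 + 1) * T3 +
      (M / 2) ^ 2 * ((2 + 1) * (2 + 2)) * T4) :
    (1 - 2 * (M - 2) / (3 * M) * (1 - (M - 3) / (2 * M) * (1 - 2 * (M - 4) / (5 * M)))) * T2 ≤
      T2 - T3 + T4 - T5 := by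
  have hM0 : 0 < M := by linarith
  obtain ⟨u, hu⟩ : ∃ u, u = 1 - 2 * (M - 4) / (5 * M) := ⟨_, rfl⟩
  have hu1 : u ≤ 1 := by
    have : 0 ≤ 2 * (M - 4) / (5 * M) := by
      apply div_nonneg <;> linarith
    linarith
  have hu0 : 0 ≤ u := by
    have : 2 * (M - 4) / (5 * M) ≤ 1 := by
      rw [div_le_one (by linarith)]
      linarith
    linarith
  have a5 : T5 ≤ (1 - u) * T4 := by
    have : (1 - u) * T4 = 2 * (M - 4) / (5 * M) * T4 := by rw [hu]; ring
    rw [this]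
    have h1 : T5 ≤ ((M - 4) * T4) / ((4 + 1) * (M / 2)) := by
      rw [le_div_iff₀ (by linarith)]
      linarith
    refine h1.trans (le_of_eq ?_)
    field_simp
    ring
  obtain ⟨q, hq⟩ : ∃ q, q = (M - 3) / M := ⟨_, rfl⟩
  obtain ⟨p, hp⟩ : ∃ p, p = 2 * (M - 2) / (3 * M) := ⟨_, rfl⟩
  have hq0 : 0 ≤ q := by rw [hq]; apply div_nonneg <;> linarith
  have hq1 : q ≤ 1 := by rw [hq, div_le_one hM0]; linarith
  have a4 : q * T3 - q * p / 2 * T2 ≤ T4 := by
    have h1 : (M ^ 2 * 3) * (q * T3 - q * p / 2 * T2) = 3 * M * (M - 3) * T3 -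
        (M - 2) * (M - 3) * T2 := by
      rw [hq, hp]
      field_simp
    have h2 : (M ^ 2 * 3) * (q * T3 - q * p / 2 * T2) ≤ (M ^ 2 * 3) * T4 := by
      rw [h1]
      linarith
    exact le_of_mul_le_mul_left h2 (by positivity)
  have a3 : T3 ≤ p * T2 := by
    have h1 : T3 ≤ ((M - 2) * T2) / ((2 + 1) * (M / 2)) := by
      rw [le_div_iff₀ (by linarith)]
      linarith
    refine h1.trans (le_of_eq ?_)
    rw [hp]
    field_simp
    ring
  have e : (1 - 2 * (M - 2) / (3 * M) * (1 - (M - 3) / (2 * M) * (1 - 2 * (M - 4) / (5 * M)))) =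
      1 - p * (1 - q / 2 * u) := by
    rw [hp, hq, hu]
    field_simp
  rw [e]
  have b1 : T2 - T3 + u * T4 ≤ T2 - T3 + T4 - T5 := by linarith
  have b2 : u * (q * T3 - q * p / 2 * T2) ≤ u * T4 := mul_le_mul_of_nonneg_left a4 hu0
  have b3 : (1 - u * q) * T3 ≤ (1 - u * q) * (p * T2) := by
    refine mul_le_mul_of_nonneg_left a3 ?_
    nlinarith
  nlinarith

theorem big (hCT : S_CT) (hTP : S_TP) (N : ℕ) (hN : 5 ≤ N) (hNm : Nm N) (V : Finset (Fin N → ℕ))
    (hV : Thick V ((N : ℝ) / 2)) : (N.factorial : ℝ) * genus V < newtonNumber V := by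
  have hN5 : (5 : ℝ) ≤ N := by exact_mod_cast hN
  obtain ⟨α, β, hβ, hkp, hq, hA⟩ := hNm
  have hcut := hCT N V ((N : ℝ) / 2) (by omega) hV
  have hω : 1 / ((N : ℝ) / 2) = 2 / N := by rw [one_div_div]
  rw [hω] at hcut
  have hg := genus_le (by omega) V _ _ α β hcut hβ hkp
  have h1 := T_one_pos (by omega) V hV.1 hV.2.2.1
  have h2 := T_nonneg V 2
  have hsum := pAL (N - 2) (fun k => T V (k + 2)) (fun k => T_nonneg V _)
    (fun k hk => T_dec V hV (k + 2) (by omega)) (by omega)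
  have hKO := pKO N V
  have hr : N + 1 = (N - 2 + 1) + 2 := by omega
  rw [hr, split_two] at hKO
  have e3 := pXX N V _ hV 2 (by omega)
  have e5 := pXX N V _ hV 4 (by omega)
  have eP := hTP N V _ (by omega) hV 2 (by omega)
  have hn := num_big (N : ℝ) (T V 2) (T V 3) (T V 4) (T V 5) hN5 h2 (T_nonneg V 4)
    (by exact_mod_cast e3) (by exact_mod_cast e5) (by exact_mod_cast eP)
  have hth : th N * T V 2 ≤ T V 2 - T V 3 + T V 4 - T V 5 := by
    unfold th
    exact hn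
  have hsum' : T V 2 - T V 3 + T V 4 - T V 5 ≤
      ∑ k ∈ Finset.range (N - 2 + 1), (-1 : ℝ) ^ k * T V (k + 2) := hsum
  have hA1 : 0 < (((N : ℝ) - 1) / N * (α - β * (2 / N)) - 1) * T V 1 :=
    mul_pos (by linarith) h1
  have hq2 : (2 * β * ((N : ℝ) - 2) / N) * T V 2 ≤ th N * T V 2 :=
    mul_le_mul_of_nonneg_right hq h2
  rw [hKO]
  linarith

end Pool.Agent.Helper65.KG
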