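import Pool.Agent.Helper70.KN.Gen

/-!
# Project KG (MP_20ee5e_ag): THEOREM G, goals

THEOREM G (helper65). `N = n + 1 ≥ 4`, `V` convenient, all nonzero coordinates of all `v ∈ V` at least `N / 2` (`n = 3`: no
coordinate is `1`): `N! genus V < newtonNumber V`. It uses THEOREM D of helper70 (files Pool/Agent/Helper70/KN, all proved; the
assembled goals are `pRH pDM pSG pFBF pLC pFX pHO ...` in Helper70/KN/Asm4.lean and `pCL pBD pMF pSI pFB pSC ...` in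
Helper70/KN/Asm.lean, import Helper70.KN.Gen).
RULES: prove `theorem t : S_XX` in a file of your own (goals of THIS file listed as USES are arguments `(h : S_YY)`; goals of
Helper70 are available as theorems `pXX`). If a statement is false as it stands, mail helper65 at once.
-/

set_option autoImplicit false

open MeasureTheory Set

namespace Pool.Agent.Helper65.KG

open Pool.Agent.Helper70.KN

variable {N : ℕ}

/-- an exponent as a real vector -/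
def cv (v : Fin N → ℕ) : Fin N → ℝ := fun j => (v j : ℝ)

/-- `z + t v` -/
def pv (z : Fin N → ℝ) (t : ℝ) (v : Fin N → ℕ) : Fin N → ℝ := fun j => z j + t * (v j : ℝ)

/-- The dual polytope, cut off at `1/c`. -/
def Lc (V : Finset (Fin N → ℕ)) (c : ℝ) : Set (Fin N → ℝ) :=
  {w | (∀ j, 0 ≤ w j ∧ w j ≤ 1 / c) ∧ ∀ v ∈ V, 1 ≤ dt w (cv v)}

/-- CT. PROOF. The equality `newton V = ...` is exactly what is shown inside the proof of `t` in Pool/Agent/Helper93/KN/DU.lean (the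
set is the same, copy it). Compact: closed and inside the box `[0, 1/c]^N`. Not empty: `w = (1/c, ..., 1/c)`, every `v ∈ V` has a
nonzero coordinate (`0 ∉ V`), which is `≥ c`. -/
def S_CT : Prop := ∀ (N : ℕ) (V : Finset (Fin N → ℕ)) (c : ℝ), 2 ≤ N → Thick V c → Cut V (Lc V c) (1 / c)

/-- SG2. The one-dimensional lemma with equality.
PROOF. `≤` is `pSG`. `≥`: as there, `b` is antitone on `[0, S]`; uniform partition `s_l = l S/m`:
`φ(s_(l+1)) - φ(s_l) ≤ b(s_l) S/m` and the integral of `b` over `[s_l, s_(l+1)]` is `≥ b(s_(l+1)) S/m`, so the integral is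
`≥ φ(S) - φ(0) - (b(0) - b(S)) S/m`; `m → ∞` (copy of Helper22/KN/SG.lean with `AntitoneOn.sum_le_integral`). -/
def S_SG2 : Prop := ∀ (φ b : ℝ → ℝ) (S : ℝ), 0 ≤ S →
  (∀ s ∈ Icc 0 S, ∀ s' ∈ Icc 0 S, φ s' ≤ φ s + b s * (s' - s)) → ∫ s in (0 : ℝ)..S, b s = φ S - φ 0

/-- FE. Flux with equality, every face. USES: SG2.
PROOF. Copy of Helper32/KN/FX.lean (`J` in place of `{j}`, `insert k J` in place of `{j, k}`, `card (insert k J) = card J + 1` and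
`pLC` for `insert k J`). Equality in the key step: for `x` with `0 ≤ x k < 1`, `x_i ≥ 0` (`i ≠ k`), `x_j < 1` (`j ∈ J`),
`φ(t) = rho L (zr J (update x k t))`, `φ(0) < 1`, let `S` be the first (`sInf`) point with `φ(S) = 1`; the inner integral is over
`[0, S)` exactly (`φ` is monotone: `φ(t) < 1` iff `t < S`), and SG2 gives `φ(S) - φ(0) = 1 - rho L (zr (insert k J) x)`. If
`φ(0) ≥ 1` both sides are `0`. -/
def S_FE : Prop := ∀ (N : ℕ) (V : Finset (Fin N → ℕ)) (L : Set (Fin N → ℝ)) (ω : ℝ), Cut V L ω →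
  ∀ (J : Finset (Fin N)) (k : Fin N), k ∉ J → ∫⁻ x in cyl V J, ENNReal.ofReal (dm L k (zr J x)) =
    ENNReal.ofReal (W V (insert k J) / ((N : ℝ) - J.card))

/-- RY. Rays. USES: CT.
PROOF. `ρ = rho (Lc V c)`. `ρ(x + y) ≥ ρ(x) + ρ(y)` (minimum of linear functions) and `ρ(t v) ≥ t` for `v ∈ V`, `t ≥ 0` (definition
of `Lc`). Take `w` active at `z + v` (`pRH`): `⟨w, z⟩ ≥ ρ(z)`, `⟨w, v⟩ ≥ 1`, with sum `ρ(z) + 1`, so both are equalities;
so `ρ(z + t v) ≤ ⟨w, z + t v⟩ = ρ(z) + t`. Last part: the same for `w` active at `z + t v`, `t > 0`. -/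
def S_RY : Prop := ∀ (N : ℕ) (V : Finset (Fin N → ℕ)) (c : ℝ), 2 ≤ N → Thick V c →
  ∀ (z : Fin N → ℝ) (v : Fin N → ℕ), v ∈ V → rho (Lc V c) (pv z 1 v) = rho (Lc V c) z + 1 →
    ∀ t : ℝ, 0 ≤ t → rho (Lc V c) (pv z t v) = rho (Lc V c) z + t ∧
      (0 < t → ∀ w ∈ Lc V c, dt w (pv z t v) = rho (Lc V c) (pv z t v) →
        dt w z = rho (Lc V c) z ∧ dt w (cv v) = 1)

/-- GV. Good vertices exist. USES: CT.
PROOF. `ρ = rho (Lc V c)`, `K' = {w ∈ Lc V c | ⟨w, z⟩ = ρ(z), w_k = 1/c for all k ∈ J}` is compact and not empty (take an active `w` at `z`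
and raise `w_k`, `k ∈ J`, to `1/c`: still in `Lc`, `⟨w, z⟩` is the same as `z_k = 0`). Let `w ∈ K'` have minimal `w_i`
(`IsCompact.exists_isMinOn`). `w_i > 0`: `m e_i ∈ V` for some `m`, so `w_i m ≥ 1`. Claim: some `v ∈ V` with `v_i ≠ 0` has `⟨w, v⟩ = 1`. If
not, all `⟨w, v⟩ > 1` for `v ∈ V`, `v_i ≠ 0`, and `w` with `w_i` replaced by `w_i - δ`, `δ > 0` small (`δ ≤ w_i`,
`δ v_i ≤ ⟨w, v⟩ - 1` for the finitely many `v`) is in `K'` (`z_i = 0`, `i ∉ J`), contradiction. For this `v`: if `v_k ≠ 0`, `k ∈ J`, then `v_k ≥ c`,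
`⟨w, v⟩ ≥ w_k v_k + w_i v_i ≥ 1 + w_i v_i > 1`, contradiction. `ρ(z + v) ≤ ⟨w, z + v⟩ = ρ(z) + 1`, and `≥` as
`⟨w', z + v⟩ ≥ ρ(z) + 1` for all `w' ∈ Lc`. -/
def S_GV : Prop := ∀ (N : ℕ) (V : Finset (Fin N → ℕ)) (c : ℝ), 2 ≤ N → Thick V c →
  ∀ (J : Finset (Fin N)) (i : Fin N), i ∉ J → ∀ z : Fin N → ℝ, 0 ≤ z → z i = 0 → (∀ k ∈ J, z k = 0) →
    ∃ v ∈ V, v i ≠ 0 ∧ (∀ k ∈ J, v k = 0) ∧ rho (Lc V c) (pv z 1 v) = rho (Lc V c) z + 1

/-- A measurable function of degree zero which does not decrease along the good rays. -/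
def Ok (V : Finset (Fin N → ℕ)) (c : ℝ) (f : (Fin N → ℝ) → ENNReal) : Prop :=
  Measurable f ∧ (∀ (x : Fin N → ℝ) (r : ℝ), 0 < r → f (fun k => r * x k) = f x) ∧
    ∀ (z : Fin N → ℝ) (v : Fin N → ℕ) (t : ℝ), v ∈ V → 0 < t →
      rho (Lc V c) (pv z 1 v) = rho (Lc V c) z + 1 → f z ≤ f (pv z t v)

/-- SCF. Scaling for homogeneous functions, in a cylinder. PROOF. As `pSC`/HO (Helper71/KN/HO.lean): change of variables `x_k ↦ λ x_k` for
`k ∉ J`: `zr J` of the new point is `λ` times the old one, `rho` is homogeneous (`pRH`), `f` is invariant; `x ∈ cyl V J` iff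
`x ≥ 0`, `x_j < 1` on `J`, `ρ(zr J x) < 1`. (`lintegral` version of `pSC`: `Real.map_linearMap_volume_pi_eq_smul_volume_pi` or
`Measure.map_addHaar_smul`-like, see also Helper91/KN/LC.lean.) -/
def S_SCF : Prop := ∀ (N : ℕ) (V : Finset (Fin N → ℕ)) (L : Set (Fin N → ℝ)) (ω : ℝ), Cut V L ω →
  ∀ (f : (Fin N → ℝ) → ENNReal), Measurable f → (∀ (x : Fin N → ℝ) (r : ℝ), 0 < r → f (fun k => r * x k) = f x) →
  ∀ (J : Finset (Fin N)) (l : ℝ), 0 < l → l ≤ 1 →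
    ∫⁻ x in {x | x ∈ cyl V J ∧ rho L (zr J x) < l}, f (zr J x) =
      ENNReal.ofReal (l ^ (N - J.card)) * ∫⁻ x in cyl V J, f (zr J x)

/-- SV. One slice. USES: CT, RY, GV, SCF.
PROOF. `J' = insert i J`, `ρ = rho (Lc V c)`, `l = 1 - s/c`, `g(x) = f(zr J' x)` on `A = {x ∈ cyl V J' | ρ(zr J' x) < l}`. By SCF the left side is the
integral of `g` over `A`. Fix an injective `e : (Fin N → ℕ) → ℕ` (`Encodable.encode`, or an equivalence of `V` with `Fin`). For `v ∈ V` with `v i ≠ 0`, `v = 0` on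
`J` let `P_v` be the set of the `x ∈ A` such that `v` is good for `z = zr J' x` (that is `ρ(pv z 1 v) = ρ(z) + 1`) and no `v'` of this kind with smaller `e` is good:
measurable (`ρ` is continuous), disjoint, and they cover `A` (GV). Let `τ_v` be the translation by the vector `(s/v_i) v_k` for `k ∉ J'`, `0` for `k ∈ J'`.
For `x ∈ P_v`, `y = τ_v x`: `update y i s` is `x_j < 1` on `J`, `s` at `i`, so `zr J (update y i s) = pv z (s/v_i) v`, `ρ` of it is `ρ(z) + s/v_i < l + s/c = 1` (RY, `v_i ≥ c`), so `y` is in the set on the right, and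
`f(z) ≤ f(pv z (s/v_i) v)`. The sets `τ_v P_v` are disjoint: let `x ∈ P_v`, `x' ∈ P_v'`, `τ_v x = τ_v' x'`, `z, z'` as before; `p := pv z (s/v_i) v = pv z' (s/v'_i) v'`. Take `w` active at `p`: by RY `⟨w, z'⟩ = ρ(z')` and `⟨w, v⟩ = 1`, so
`ρ(z' + v) ≤ ρ(z') + 1`, and `≥` always: `v` is good for `z'`, so `e v' ≤ e v`; by symmetry `e v ≤ e v'`, `v = v'`. Now add over `v` (translations preserve the volume,
`lintegral_add_right_eq_self` or `lintegral_sub_right_eq_self` applied to indicator functions). -/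
def S_SV : Prop := ∀ (N : ℕ) (V : Finset (Fin N → ℕ)) (c : ℝ), 2 ≤ N → Thick V c →
  ∀ f : (Fin N → ℝ) → ENNReal, Ok V c f → ∀ (J : Finset (Fin N)) (i : Fin N), i ∉ J → ∀ s : ℝ, 0 < s → s < c →
    ENNReal.ofReal ((1 - s / c) ^ (N - J.card - 1)) * ∫⁻ x in cyl V (insert i J), f (zr (insert i J) x) ≤
      ∫⁻ x in {x | 0 ≤ x i ∧ x i < 1 ∧ Function.update x i s ∈ cyl V J}, f (zr J (Function.update x i s))

/-- SW. All slices. USES: SV.
PROOF. Integrate SV over `0 < s < c`: `∫ (1 - s/c)^(m-1) ds = c/m`, `m = N - |J| ≥ 1`; the right sides give at most the integral over `cyl V J`: Fubini in the direction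
`i` (`pFBF` and Tonelli, `lintegral_lintegral_swap`: `∫⁻ h = ∫⁻ s, ∫⁻ x in {0 ≤ x i < 1}, h (update x i s)`, `h` the indicator of `cyl V J` times `f (zr J ·)`). -/
def S_SW : Prop := ∀ (N : ℕ) (V : Finset (Fin N → ℕ)) (c : ℝ), 2 ≤ N → Thick V c →
  ∀ f : (Fin N → ℝ) → ENNReal, Ok V c f → ∀ (J : Finset (Fin N)) (i : Fin N), i ∉ J →
    ENNReal.ofReal (c / ((N : ℝ) - J.card)) * ∫⁻ x in cyl V (insert i J), f (zr (insert i J) x) ≤
      ∫⁻ x in cyl V J, f (zr J x)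

/-- PI. The pair inequality. USES: CT, RY, FE, SW.
PROOF. `L = Lc V c`, `f(x) = ofReal (1 - c dm L j x)` (`0 ≤ dm ≤ 1/c` by `pDM`) is Ok: measurable, degree zero by `pDM`; if `v` is good for `z` and `w` is active
at `pv z t v` with `w_j = dm L j (pv z t v)` (`pDM`), then `w` is active at `z` (RY), so `dm L j (pv z t v) ≤ dm L j z`. For a face `F` (`j ∉ F`): `f + c dm = 1`, so with FE (all finite, `pMF`)
`∫ over cyl V F of f(zr F x)` is `ofReal (W V F - c W V (insert j F) / (N - |F|))`. SW for `f`, `J`, `i` (`m = N - |J|`):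
`c (W_i - c W_ij/(m-1)) ≤ m (W - c W_j/m)`; multiply by `m - 1 > 0`. -/
def S_PI : Prop := ∀ (N : ℕ) (V : Finset (Fin N → ℕ)) (c : ℝ), 2 ≤ N → Thick V c →
  ∀ (J : Finset (Fin N)) (i j : Fin N), i ≠ j → i ∉ J → j ∉ J →
    0 ≤ ((N : ℝ) - J.card) * ((N : ℝ) - J.card - 1) * W V J -
      c * ((N : ℝ) - J.card - 1) * (W V (insert i J) + W V (insert j J)) + c ^ 2 * W V (insert i (insert j J))

/-- TP. Summation. USES: PI.
PROOF. Multiply PI by `(m-2)!`, `m = N - |J|` (`m! W_J - c (m-1)! (W_i + W_j) + c² (m-2)! W_ij ≥ 0`) and add over all `J` with `|J| = k` and all ordered pairs `i ≠ j` outside of `J` (then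
divide by 2): `∑_J ∑_(i≠j) m! W_J = (N-k)(N-k-1) T_k`, `∑_J ∑_(i≠j) (m-1)! W_i = (N-k-1)(k+1) T_(k+1)` (every `J' = insert i J` with `|J'| = k+1` occurs for `k+1` pairs `(i, J)`),
`∑_J ∑_(i≠j) (m-2)! W_ij = (k+2)(k+1) T_(k+2)`. (Double counting as in Helper32/KN/XX.lean.) -/
def S_TP : Prop := ∀ (N : ℕ) (V : Finset (Fin N → ℕ)) (c : ℝ), 2 ≤ N → Thick V c → ∀ k : ℕ, k + 2 ≤ N →
  0 ≤ ((N : ℝ) - k) * ((N : ℝ) - k - 1) * T V k - 2 * c * ((N : ℝ) - k - 1) * ((k : ℝ) + 1) * T V (k + 1) +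
    c ^ 2 * (((k : ℝ) + 1) * ((k : ℝ) + 2)) * T V (k + 2)

/-- `θ_N` -/
noncomputable def th (N : ℕ) : ℝ := 1 - 2 * ((N : ℝ) - 2) / (3 * N) *
  (1 - ((N : ℝ) - 3) / (2 * N) * (1 - 2 * ((N : ℝ) - 4) / (5 * N)))

/-- The numerical condition for `N ≥ 5`. -/
def Nm (N : ℕ) : Prop := ∃ α β : ℝ, 0 ≤ β ∧ (∀ σ, 0 ≤ σ → α - β * σ ≤ kp N σ) ∧
  2 * β * ((N : ℝ) - 2) / N ≤ th N ∧ 1 < ((N : ℝ) - 1) / N * (α - β * (2 / N))

/-- NM5. PROOF. `th 5 = .6736`, `β = .5613`, `α = 1.49`. `pKP`: for `0 < σ ≤ 2`, `y = 1 - σ/2 ∈ [0, 1)`, the claim is `(α - 2 β (1-y)) 2 (1-y) ≤ 1 - y^5` (divide by `1 - y`: a polynomial of degree 4 on `[0,1]`, minimum of the difference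
`.0049` near `y = .37`); for `σ = 0`: `α ≤ N/2`; for `σ ≥ 2`: `α - β σ ≤ α - 2 β ≤ ... ≤ 1/σ` (`1/σ + β σ ≥ 2 √β = 1.4984`, for `σ ≥ 2` even `≥ 1/2 + 2 β`). -/
def S_NM5 : Prop := Nm 5

/-- NM6. PROOF. As NM5; `β = .4888`, `α = 1.39`. -/
def S_NM6 : Prop := Nm 6

/-- NM7. PROOF. As NM5; `β = .4455`, `α = 1.33`. -/
def S_NM7 : Prop := Nm 7

/-- NM8. PROOF. As NM5; `β = .4166`, `α = 1.286`. -/
def S_NM8 : Prop := Nm 8

/-- NM9. PROOF. `a = .979 ≤ 1 - (13/20)^9`. `κ ≥ a/σ` for `σ ≥ 7/10`, and `κ ≥ κ(7/10) ≥ a/(7/10) = 1.398` for `σ ≤ 7/10` (as NU6, Helper33/KN/NU6.lean). With `x = .516 + 1/N`: `a/σ ≥ 2 a x - a x² σ`, so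
`β = a x²`, `α = 2 a x` (`≤ 1.23 < 1.398`). Needed: `2 β (N-2)/N ≤ th N` and `(N-1)/N (α - 2 β/N) > 1`: rational inequalities in `N ≥ 9` (`N = 9`: `x = .627`, allowed `[.617, .636]`; `N = 12`: `.599`, allowed `≤ .605`; `N = 20`: `.566`, allowed `[.553, .570]`; `N = ∞`: allowed `[.5108, .5219]`; put `N = m + 9`). -/
def S_NM9 : Prop := ∀ N : ℕ, 9 ≤ N → Nm N

/-- FA. Axes. PROOF. `x ∈ cyl V (univ.erase i)`: `0 ≤ x_j < 1` for `j ≠ i` and `zr _ x = x_i e_i ∉ newton V`, so `x_i < m`: the volume is at most that of the box, `m`. -/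
def S_FA : Prop := ∀ (N : ℕ) (V : Finset (Fin N → ℕ)), Convenient V → ∀ (i : Fin N) (m : ℕ),
  (Pi.single i m : Fin N → ℕ) ∈ V → W V (Finset.univ.erase i) ≤ m

/-- FB3. Upper bound by a face. PROOF. `J' = insert b J`. Slices of `cyl V J` in the direction `b` (`pSI`): for `t ≥ m` the slice is empty (`zr J (update x b t) ≥ m e_b`), for `0 ≤ t < m`, `l = 1 - t/m`, the slice is inside
`{x | D⁻¹ x ∈ cyl V J'}`, `D_k = 1` on `J'`, `l` outside: otherwise `zr J' (D⁻¹ x) ∈ newton V` and the convex combination `l · zr J' (D⁻¹ x) + (t/m) · m e_b = zr J (update x b t)` is in `newton V` (`pCL`). Volume `≤ l^(N-|J|-1) W V J'` (`pSC`);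
`∫_0^m (1 - t/m)^(N-|J|-1) dt = m/(N-|J|)`. -/
def S_FB3 : Prop := ∀ (N : ℕ) (V : Finset (Fin N → ℕ)), Convenient V → ∀ (J : Finset (Fin N)) (b : Fin N) (m : ℕ),
  b ∉ J → 0 < m → (Pi.single b m : Fin N → ℕ) ∈ V → ((N : ℝ) - J.card) * W V J ≤ m * W V (insert b J)

/-- FC2. Two-dimensional faces, `c = 2`. `m`, `m'` the smallest multiples of `e_i`, `e_j` in `V`.
PROOF. `J = {i, j}ᶜ`. A point of `newton V` with zero coordinates on `J` is `≥` a convex combination of `v ∈ V` with zero coordinates on `J`; such `v` are `(p, 0)`, `p ≥ m`, `(0, q)`, `q ≥ m'`, or `p, q ≥ 2`. CASE 1 `m m' ≤ 2 (m + m')`: all satisfy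
`p/m + q/m' ≥ 1` (`2/m + 2/m' ≥ 1`). So `cyl V J` contains the `x ≥ 0` with `x_i/m + x_j/m' < 1`, `x_k < 1` (`k ∈ J`): volume `m m'/2`. CASE 2 `m m' ≥ 2 (m + m')`, so `m, m' > 2` and `(m-2)(m'-2) ≥ 4`: all satisfy `p/m + q (1/2 - 1/m) ≥ 1`
(`p, q ≥ 2`: `≥ 2/m + 1 - 2/m`; `(0, q)`: `m'(m-2) ≥ 2 m`) and `p (1/2 - 1/m') + q/m' ≥ 1`. So the slice `x_j = r` of `cyl V J` has `x_i`-length `≥ m - r (m-2)/2` and `≥ 2 (m'-r)/(m'-2)`: `∫_0^2 (m - r(m-2)/2) dr + ∫_2^m' 2 (m'-r)/(m'-2) dr = (m+2) + (m'-2) = m + m'`. -/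
def S_FC2 : Prop := ∀ (N : ℕ) (V : Finset (Fin N → ℕ)), Thick V 2 → ∀ (i j : Fin N) (m m' : ℕ), i ≠ j →
  (Pi.single i m : Fin N → ℕ) ∈ V → (∀ k : ℕ, (Pi.single i k : Fin N → ℕ) ∈ V → m ≤ k) →
  (Pi.single j m' : Fin N → ℕ) ∈ V → (∀ k : ℕ, (Pi.single j k : Fin N → ℕ) ∈ V → m' ≤ k) →
    min ((m : ℝ) * m') (2 * (m + m')) ≤ 2 * W V ({i, j} : Finset (Fin N))ᶜ

/-- The three lines below `κ` for `N = 4`. -/
def Line4 (α β : ℝ) : Prop := 0 ≤ β ∧ ∀ σ, 0 ≤ σ → α - β * σ ≤ kp 4 σ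

/-- KL. PROOF. `pKP`: for `0 < σ ≤ 2` `κ(σ) = 2 - (3/2) σ + σ²/2 - σ³/16`, tangents (rounded down) at `.80`, `.97`, `1.17`: the differences `κ(σ) - (α - β σ)` are polynomials of degree 3, positive on `[0, 2]` (minimum `> 0` near the point); `σ ≥ 2`: `α - β σ ≤ α - 2 β < 1/σ - ...`: `1/σ ≥ 0`, and `α - β σ ≤ 1/2 - (σ-2)/4 ≤ 1/σ` (tangent of `1/σ` at `2`). -/
def S_KL : Prop := Line4 (1.7437 : ℝ) 0.82 ∧ Line4 (1.6455 : ℝ) 0.7085 ∧ Line4 (1.5178 : ℝ) 0.5885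

/-- N4. Numerics for `N = 4`. `m_i` the axes, `T1, T2, T3` the sums.
PROOF. Put `A(α, β) = 3/4 (α - β/2) - 1`, `B = 1 - β`: line 1: `A = .000275`, `B = .18`; line 2: `A = -.0315625`, `B = .2915`; line 3: `A = -.0823375`, `B = .4115`. One of the three `A T1 + B T2 - T3 + 1` is `> 0`:
let `ξ` be the smallest of the four sums of three `1/m_b` (that is, without the smallest `m`); `ξ T1 ≤ 2 T2` by hypothesis. So lines 2 and 3 give `(B + 2 A/ξ) T2 - ∑ m + 1`. `T2 ≥ 6 ∑ m - (deficits)`, every deficit `max 0 (4 - (m_i - 2)(m_j - 2)) ≤ 4`, so line 1 is enough if `∑ m ≥ 42` (`.08 · 42 = 3.36 > .18 · 24 - 1 = 3.32`). The finitely many sorted `m` with sum `≤ 41` are checked by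
computation (`decide` over lists of natural numbers after clearing denominators, or hand cases): margin `≥ .016 ∑ m` for one of the three lines (numerically verified; worst `(2,5,5,6)`: `.29`). -/
def S_N4 : Prop := ∀ (m : Fin 4 → ℕ) (T1 T2 T3 : ℝ), (∀ i, 2 ≤ m i) → 0 ≤ T1 → T3 ≤ ∑ i, (m i : ℝ) →
  ∑ i, ∑ j ∈ Finset.univ.filter (fun j => i < j), min ((m i : ℝ) * m j) (2 * (m i + m j)) ≤ T2 →
  (∀ ξ : ℝ, (∀ a, ξ ≤ ∑ b ∈ Finset.univ.erase a, 1 / (m b : ℝ)) → ξ * T1 ≤ 2 * T2) →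
    ∃ α β : ℝ, Line4 α β ∧ 0 < (3 / 4 * (α - β / 2) - 1) * T1 + (1 - β) * T2 - T3 + 1

end Pool.Agent.Helper65.KG
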